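import Pool.Agent.Y33.RN.Stm
import Pool.Agent.Y26.SM.KEY
import Pool.Agent.Y26.SM.CUT

set_option autoImplicit false

/-!
# Divergence in the quotient, overlaps proportional to the scale (project RN of helper33);
the proof follows Pool/Agent/Y26/SM/{KEY,CUT}.lean of helper26
-/

namespace Pool.Agent.Y944.RN.CUT2

open Pool.Agent.TH54.BU Pool.Agent.Y33.SM Pool.Agent.Y33.RN Pool.Agent.Y26.SM.KEY
  Pool.Agent.Y26.SM.CUT

/-- KEY with an explicit constant -/
theorem key2 (h1 : S_MIN) (h2 : S_OV) {G : Type} [Group G] {w : GH G} {κ n : ℕ} {F : GH G}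
    {L : LS F 1100 234003 2} {X : Set G} {M : Subgroup G} (C : Ctx w κ n L X M) {h : G} {e : ℕ}
    {k : G → ℤ} {A : ℕ} (hs : Str w h) (P : Pj w h e k) (hA : ∀ x ∈ X, HF k A x) (z m : G)
    (hm : m ∈ M) (hz : ∀ m' ∈ M, w.len z ≤ w.len (m' * z) + κ)
    (hmz : ∀ m' ∈ M, w.len (m * z) ≤ w.len (m' * z) + κ) :
    (k z - k (m * z)).natAbs ≤ 2 * e + A := by
  by_cases hm1 : m = 1
  · rw [hm1, one_mul, sub_self]; simp
  obtain ⟨i, u, hg⟩ := C.fil.gr m hm hm1 z
  have k1 := h1 G w κ n F L X M C 1 z (by norm_num) (by simpa using hz) i u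
  have k2 := h1 G w κ n F L X M C 1 (m * z) (by norm_num) (fun m' hm' => by
    have := hmz (m' * m) (M.mul_mem hm' hm)
    rw [mul_assoc] at this
    simpa using this) i u
  have k3 := L.wf_s_add i u z 1 (m * z)
  have k4 := L.wf_s_symm i u z 1
  have hthr : L.thr = 472408 := rfl
  rw [hthr] at hg
  have hn : (10 : ℤ) ^ 12 ≤ n := by exact_mod_cast C.hn
  have e12 : (10 : ℤ) ^ 12 = 1000000000000 := by norm_num
  have e7 : (10 : ℤ) ^ 7 = 10000000 := by norm_num
  rw [e12] at hn
  push_cast at k1 k2 hg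
  rw [Int.abs_eq_natAbs] at hg k1 k2
  have n1 : 10 ^ 7 ≤ |L.s i u 1 z| := by
    rw [e7, Int.abs_eq_natAbs]
    omega
  have n2 : 10 ^ 7 ≤ |L.s i u 1 (m * z)| := by
    rw [e7, Int.abs_eq_natAbs]
    omega
  have p1 := near_pr C h2 hs P n1
  have p2 := near_pr C h2 hs P n2
  have p3 : (k (L.pr i u z) - k (L.pr i u (m * z))).natAbs ≤ A := hA _ (C.mem i) u _ _
  omega

/-- the crossing argument -/
theorem core {G : Type} [Group G] {w : GH G} {h : G} {e : ℕ} {k : G → ℤ} {M : Subgroup G}
    [M.Normal] {w' : GH (G ⧸ M)} (hs : Str w h) (P : Pj w h e k) (Q : QL w M w')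
    (hstr' : Str w' (h : G ⧸ M)) {C r κ C1 c t N : ℕ} (hc : c = e + C1) {σ : ℕ → G ⧸ M}
    (hσ : ∀ k, k < N → w'.d (σ k) (σ (k + 1)) ≤ 1) (h0 : σ 0 = (h : G ⧸ M) ^ t)
    (hN : σ N = ((h : G ⧸ M) ^ t)⁻¹) (hr : ∀ k, k ≤ N → t ≤ r * w'.d 1 (σ k))
    (hcon : N ≤ C * t)
    (key : ∀ z y : G, (z : G ⧸ M) = (y : G ⧸ M) → w'.len (z : G ⧸ M) ≤ (C + 1) * t →
      w.len z ≤ w'.len (z : G ⧸ M) + κ → w.len y ≤ w'.len (z : G ⧸ M) + κ →
        (k z - k y).natAbs ≤ C1)
    (a1 : 4 * r * (c * (16 * r * C + 1) + 1) ≤ t) (a2 : 8 * r * (c + 1) ≤ t)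
    (a3 : 4 * r * (e + 1) ≤ t) (a4 : C1 ≤ t) (a5 : 8 * r ≤ κ) (a6 : 128 * r * r * c * C ≤ κ)
    (a7 : 1 ≤ t) : False := by
  have hr1 : 1 ≤ r := by
    rcases Nat.eq_zero_or_pos r with h3 | h3
    · have := hr 0 (Nat.zero_le _)
      rw [h3, zero_mul] at this
      omega
    · exact h3
  have ht8 : 8 * r ≤ t := by
    have : 8 * r * 1 ≤ 8 * r * (c + 1) := Nat.mul_le_mul_left _ (by omega)
    omega
  -- all the points are short
  have hshort : ∀ b, b ≤ N → w'.len (σ b) ≤ (C + 1) * t := by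
    intro b hb
    have h3 := path_le w' hσ 0 b (by omega)
    rw [zero_add] at h3
    have h4 := w'.d_tri 1 (σ 0) (σ b)
    rw [w'.d_one, w'.d_one] at h4
    have h5 : w'.len (σ 0) = t := by rw [h0]; exact hstr' t
    have h6 : (C + 1) * t = C * t + t := by ring
    omega
  obtain ⟨S, hS⟩ : ∃ S, S = min t κ / (8 * r) := ⟨_, rfl⟩
  obtain ⟨T, hT⟩ : ∃ T, T = t / (4 * r) := ⟨_, rfl⟩
  have hT1 : 4 * r * T ≤ t := by rw [hT]; exact Nat.mul_div_le _ _
  have hTt : T ≤ t := by rw [hT]; exact Nat.div_le_self _ _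
  have hTe : e ≤ T := by
    rw [hT, Nat.le_div_iff_mul_le (by omega)]
    have : 4 * r * (e + 1) = e * (4 * r) + 4 * r := by ring
    omega
  have hS1 : 8 * r * S ≤ min t κ := by rw [hS]; exact Nat.mul_div_le _ _
  have hST : 2 * S ≤ T := by
    rw [hT, Nat.le_div_iff_mul_le (by omega)]
    have h3 := hS1.trans (min_le_left _ _)
    calc 2 * S * (4 * r) = 8 * r * S := by ring
      _ ≤ t := h3
  have hSκ : 2 * S ≤ κ := by
    have h3 := hS1.trans (min_le_right _ _)
    have h4 : 8 * 1 * S ≤ 8 * r * S := Nat.mul_le_mul_right _ (by omega)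
    omega
  have hS0 : 1 ≤ S := by
    rw [hS, Nat.le_div_iff_mul_le (by omega)]
    have := le_min ht8 a5
    omega
  -- the induction
  have ind : ∀ j : ℕ, ∃ z : G, (z : G ⧸ M) = σ (min (j * S) N) ∧
      w.len z = w'.len (σ (min (j * S) N)) ∧ (T : ℤ) ≤ f T (k z) + c * j := by
    intro j
    induction j with
    | zero =>
      refine ⟨h ^ t, ?_, ?_, ?_⟩
      · rw [zero_mul, Nat.zero_min, h0]; rfl
      · rw [zero_mul, Nat.zero_min, h0, hs t]; exact (hstr' t).symm
      · have h3 := k_pow hs P t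
        rw [zpow_natCast] at h3
        rw [h3]
        unfold f
        push_cast
        have : (T : ℤ) ≤ t := by exact_mod_cast hTt
        rw [min_eq_left this, max_eq_right (by positivity)]
        omega
    | succ j ih =>
      obtain ⟨z, hz1, hz2, hz3⟩ := ih
      set a := min (j * S) N with ha
      set b := min ((j + 1) * S) N with hb
      have hjs : (j + 1) * S = j * S + S := by ring
      have hab : a ≤ b := by omega
      have hbN : b ≤ N := min_le_right _ _
      have hba : b - a ≤ S := by omega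
      have hd : w'.d (σ a) (σ b) ≤ S := by
        have := path_le w' hσ a (b - a) (by omega)
        rw [show a + (b - a) = b by omega] at this
        omega
      -- lift the step
      obtain ⟨s, hs1, hs2⟩ := Q.lift ((σ a)⁻¹ * σ b)
      have hsS : w.len s ≤ S := by rw [hs2]; exact hd
      obtain ⟨y, hy1, hy2⟩ := Q.lift (σ b)
      have hzs : ((z * s : G) : G ⧸ M) = σ b := by
        rw [QuotientGroup.mk_mul, hz1, hs1, mul_inv_cancel_left]
      have hlen : w.len (z * s) ≤ w'.len (σ b) + κ := by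
        have h3 := w.len_mul z s
        have h4 := w'.d_tri 1 (σ b) (σ a)
        rw [w'.d_one, w'.d_one, w'.d_comm (σ b) (σ a)] at h4
        omega
      have hkey := key y (z * s) (by rw [hy1, hzs]) (by rw [hy1]; exact hshort b hbN)
        (by rw [hy1, hy2]; omega) (by rw [hy1]; exact hlen)
      refine ⟨y, hy1, hy2, ?_⟩
      -- the projection of the step
      have hra : 4 * T ≤ w.len z := by
        have h3 := hr a (min_le_right _ _)
        rw [w'.d_one, ← hz2] at h3
        have h4 : r * (4 * T) ≤ r * w.len z := by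
          calc r * (4 * T) = 4 * r * T := by ring
            _ ≤ t := hT1
            _ ≤ _ := h3
        exact Nat.le_of_mul_le_mul_left h4 (by omega)
      have htri : w.len z ≤ (k z).natAbs + w.d z (h ^ k z) := by
        have h3 := w.d_tri 1 (h ^ k z) z
        rw [w.d_one, w.d_one, str_zpow hs, w.d_comm (h ^ k z) z] at h3
        exact h3
      have hds : w.d z (z * s) ≤ S := by
        unfold GH.d
        rw [inv_mul_cancel_left]; exact hsS
      have hcase : (k z - k (z * s)).natAbs ≤ e ∨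
          w.d z (h ^ k z) + (k z - k (z * s)).natAbs ≤ S + e := by
        rcases le_or_gt (k z - k (z * s)).natAbs e with h3 | h3
        · exact Or.inl h3
        · have := P.proj z (z * s) h3
          right; omega
      have hc' : (c : ℤ) = e + C1 := by rw [hc]; push_cast; ring
      have hcj : (c : ℤ) * ((j + 1 : ℕ) : ℤ) = c * j + c := by push_cast; ring
      rw [hcj]
      unfold f at hz3 ⊢
      generalize (c : ℤ) * j = cj at hz3 ⊢
      rcases hcase with h3 | h3
      · omega
      · omega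
  obtain ⟨z, hz1, hz2, hz3⟩ := ind (N / S + 1)
  have hJ : min ((N / S + 1) * S) N = N := by
    apply min_eq_right
    have := Nat.lt_mul_div_succ N (show 0 < S by omega)
    rw [mul_comm] at this
    exact this.le
  rw [hJ] at hz1 hz2
  have hsN := hshort N le_rfl
  rw [hN] at hz1 hz2 hsN
  have hinv : ((h ^ (-(t : ℤ)) : G) : G ⧸ M) = ((h : G ⧸ M) ^ t)⁻¹ := by
    rw [zpow_neg, zpow_natCast]; rfl
  have hkey := key z (h ^ (-(t : ℤ))) (by rw [hz1, hinv]) (by rw [hz1]; exact hsN)
    (by rw [hz1, hz2]; omega)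
    (by rw [hz1, w'.len_inv, hstr' t, str_zpow hs]; omega)
  rw [k_pow hs P] at hkey
  have hk0 : k z ≤ 0 := by omega
  have hf : f T (k z) = 0 := by
    unfold f
    omega
  rw [hf, zero_add] at hz3
  have hfin : T ≤ c * (N / S + 1) := by exact_mod_cast hz3
  exact arith hr1 hS hT ht8 a5 hcon a1 a2 a6 hfin

theorem t (h2 : S_STR) (hmin : S_MIN) (hov : S_OV) : S_CUT2 := by
  intro G _ w h e k C r hNW hs P
  obtain ⟨Z, hZ⟩ : ∃ Z, Z = (C + 1) * (8 * r) * (16 * r * C + 2) + 128 * r * r * C + 8 * r + 1 :=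
    ⟨_, rfl⟩
  refine ⟨4 * r * (e * (16 * r * C + 1) + 1) + 8 * r * (e + 1) + 4 * r * (e + 1) + 1,
    2 * (Z * (3 * e + 2)), 2 * Z, ?_⟩
  intro κ hκ A n F L X M _ hqA hC hA w' Q t1 t ht _ σ N hσ h0 hN hr
  by_contra hcon
  push Not at hcon
  have hS := h2 G w κ n F L X M hC w' Q
  have hstr' := hS.1 h hs
  have hZκ : Z ≤ κ := by
    have : Z * 1 ≤ Z * (3 * e + 2) := Nat.mul_le_mul_left _ (by omega)
    omega
  have hκ8 : 8 * r ≤ κ := by omega
  rcases le_or_gt ((C + 1) * t) κ with hcase | hcase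
  · -- small scale: everything lifts
    refine core (C := C) (r := r) (κ := κ) (C1 := 0) (c := e) hs P Q hstr' (by omega) hσ h0 hN hr
      hcon ?_ (by omega) (by omega) (by omega) (by omega) hκ8 ?_ (by omega)
    · intro z y hzy hz1 hz2 hz3
      have hm : y * z⁻¹ ∈ M := by
        rw [← QuotientGroup.eq_one_iff, QuotientGroup.mk_mul, QuotientGroup.mk_inv, hzy]
        exact mul_inv_cancel _
      by_cases h1 : y * z⁻¹ = 1
      · rw [mul_inv_eq_one] at h1
        rw [h1, sub_self]; simp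
      · exfalso
        have h3 := hS.2.1 _ hm h1
        have h4 := w.len_mul y z⁻¹
        rw [w.len_inv] at h4
        have h5 : 10 ^ 12 * κ ≤ n * κ := Nat.mul_le_mul_right _ hC.hn
        have h6 := hC.hκ
        omega
    · have h3 : 128 * r * r * e * C ≤ Z * e := by
        have : 128 * r * r * C ≤ Z := by omega
        calc 128 * r * r * e * C = 128 * r * r * C * e := by ring
          _ ≤ Z * e := Nat.mul_le_mul_right _ this
      have h4 : 2 * (Z * (3 * e + 2)) = Z * e + (5 * (Z * e) + 4 * Z) := by ring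
      omega
  · -- large scale
    obtain ⟨c, hc⟩ : ∃ c, c = e + (2 * e + A) := ⟨_, rfl⟩
    have hZc : Z * (c + 1) ≤ κ := by
      have e1 : 2 * (Z * (c + 1)) = 2 * (Z * (3 * e + 1)) + 2 * Z * A := by rw [hc]; ring
      have e2 : 2 * (Z * (3 * e + 1)) ≤ 2 * (Z * (3 * e + 2)) :=
        Nat.mul_le_mul_left _ (Nat.mul_le_mul_left _ (by omega))
      omega
    have hcancel : ∀ Y : ℕ, (C + 1) * Y ≤ κ → Y ≤ t := by
      intro Y hY
      have : (C + 1) * Y ≤ (C + 1) * t := by omega
      exact Nat.le_of_mul_le_mul_left this (by omega)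
    have b1 : 4 * r * (c * (16 * r * C + 1) + 1) ≤ t := by
      apply hcancel
      refine le_trans ?_ hZc
      have e1 : (C + 1) * (4 * r * (c * (16 * r * C + 1) + 1)) ≤
          (C + 1) * (8 * r) * (16 * r * C + 2) * (c + 1) := by
        have e2 : (C + 1) * (8 * r) * (16 * r * C + 2) * (c + 1) =
            (C + 1) * (4 * r * (c * (16 * r * C + 1) + 1)) +
              ((C + 1) * (4 * r) * (c * (16 * r * C + 3) + 32 * r * C + 3)) := by ring
        omega
      refine e1.trans (Nat.mul_le_mul_right _ (by omega))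
    have b2 : 8 * r * (c + 1) ≤ t := by
      apply hcancel
      refine le_trans ?_ hZc
      have e1 : (C + 1) * (8 * r * (c + 1)) = (C + 1) * (8 * r) * 1 * (c + 1) := by ring
      rw [e1]
      apply Nat.mul_le_mul_right
      have e2 : (C + 1) * (8 * r) * 1 ≤ (C + 1) * (8 * r) * (16 * r * C + 2) :=
        Nat.mul_le_mul_left _ (by omega)
      omega
    have hr1 : 1 ≤ r := by
      rcases Nat.eq_zero_or_pos r with h3 | h3
      · have := hr 0 (Nat.zero_le _)
        rw [h3, zero_mul] at this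
        omega
      · exact h3
    have b3 : c ≤ t := by
      have : 1 * (c + 1) ≤ 8 * r * (c + 1) := Nat.mul_le_mul_right _ (by omega)
      omega
    refine core (C := C) (r := r) (κ := κ) (C1 := 2 * e + A) (c := c) hs P Q hstr' hc hσ h0 hN hr
      hcon ?_ b1 b2 (by omega) (by omega) hκ8 ?_ (by omega)
    · intro z y hzy hz1 hz2 hz3
      have hm : y * z⁻¹ ∈ M := by
        rw [← QuotientGroup.eq_one_iff, QuotientGroup.mk_mul, QuotientGroup.mk_inv, hzy]
        exact mul_inv_cancel _
      have hle : ∀ m' ∈ M, w'.len (z : G ⧸ M) ≤ w.len (m' * z) := by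
        intro m' hm'
        have e1 : ((m' * z : G) : G ⧸ M) = (z : G ⧸ M) := by
          rw [QuotientGroup.mk_mul, (QuotientGroup.eq_one_iff m').2 hm', one_mul]
        rw [← e1]
        exact Q.le _
      have := key2 hmin hov hC hs P hA z (y * z⁻¹) hm
        (fun m' hm' => by have := hle m' hm'; omega)
        (fun m' hm' => by
          have := hle m' hm'
          rw [inv_mul_cancel_right]
          omega)
      rwa [inv_mul_cancel_right] at this
    · refine le_trans ?_ hZc
      have e1 : 128 * r * r * c * C ≤ 128 * r * r * C * (c + 1) := by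
        have e2 : 128 * r * r * C * (c + 1) = 128 * r * r * c * C + 128 * r * r * C := by ring
        omega
      exact e1.trans (Nat.mul_le_mul_right _ (by omega))

end Pool.Agent.Y944.RN.CUT2
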