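import Pool.Agent.Y33.RN.Stm
import Pool.Agent.Y179.SM.Circ

set_option autoImplicit false

/-!
# Relator circles in the quotient, strong form (project RN of helper33)
-/

namespace Pool.Agent.Y944.RN.RING

open Pool.Agent.TH54.BU Pool.Agent.Y33.SM Pool.Agent.Y33.RN Pool.Agent.Y179.SM.Circ


/-- the displacement of a power of a relator root along the relator lines -/
theorem s_pow {G : Type} [Group G] {w : GH G} {κ n : ℕ} {F : GH G}
    {L : LS F 1100 234003 2} {X : Set G} {M : Subgroup G} (C : Ctx w κ n L X M) {x : G}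
    (hx : x ∈ X) (g1 : G) (a : ℤ) (i : L.ι) (u : G) :
    |L.s i u g1 (g1 * x ^ a)| ≤ |a| + 10 ^ 6 := by
  have hκ := C.hκ
  have hκ1 : 1 ≤ κ := by omega
  have hlo := C.lo x hx
  have hhi := C.hi x hx
  have hcm := C.cmin x hx
  obtain ⟨j, v, hv⟩ := C.cov x hx
  have hj := C.mem j
  have hjl : w.len (L.x j) = w.len x := by
    apply le_antisymm
    · rcases hv with hv | hv
      · have := C.cmin _ hj v⁻¹
        rwa [inv_inv, ← hv] at this
      · have h1 := C.cmin _ hj v⁻¹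
        have e : w.len (v⁻¹⁻¹ * L.x j * v⁻¹) = w.len x := by
          rw [hv, ← w.len_inv]; congr 1; group
        rwa [e] at h1
    · rcases hv with hv | hv
      · have := hcm v
        rwa [show v⁻¹ * x * v = L.x j by rw [hv]; group] at this
      · have := hcm v
        rwa [show v⁻¹ * x * v = (L.x j)⁻¹ by rw [hv]; group, w.len_inv] at this
  have hpow : ∀ k : ℤ, x ^ k = v * L.x j ^ k * v⁻¹ ∨ x ^ k = v * L.x j ^ (-k) * v⁻¹ := by
    intro k
    rcases hv with hv | hv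
    · left; rw [hv, conj_zpow]
    · right; rw [hv, conj_zpow, inv_zpow, zpow_neg]
  by_cases hline : i = j ∧ u⁻¹ * (g1 * v) ∈ Subgroup.zpowers (L.x i)
  · obtain ⟨rfl, hk⟩ := hline
    obtain ⟨k, hk⟩ := hk
    have hk' : L.x i ^ k = u⁻¹ * (g1 * v) := hk
    have hv' : g1 * v = u * L.x i ^ k := by rw [hk']; group
    have hmain : |L.s i u g1 (g1 * x ^ a)| = |a| := by
      have h1 : L.s i u g1 (g1 * x ^ a) = L.s i (g1 * v) g1 (g1 * x ^ a) := by
        rw [hv', L.wf_s_base]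
      rw [h1]
      rcases hpow a with h | h
      · have e : g1 * x ^ a = (g1 * v) * L.x i ^ a * (g1 * v)⁻¹ * g1 := by rw [h]; group
        rw [e, L.wf_s_rot]
      · have e : g1 * x ^ a = (g1 * v) * L.x i ^ (-a) * (g1 * v)⁻¹ * g1 := by rw [h]; group
        rw [e, L.wf_s_rot, abs_neg]
    omega
  · have hline' : i = j → u⁻¹ * (g1 * v) ∉ Subgroup.zpowers (L.x i) := by
      intro h1 h2; exact hline ⟨h1, h2⟩
    have hdv : w.d v (x * v) ≤ w.len x := by
      rw [← hjl]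
      unfold GH.d
      have e : v⁻¹ * (x * v) = v⁻¹ * x * v := by group
      rw [e]
      rcases hv with hv | hv
      · rw [hv, show v⁻¹ * (v * L.x j * v⁻¹) * v = L.x j by group]
      · rw [hv, show v⁻¹ * (v * (L.x j)⁻¹ * v⁻¹) * v = (L.x j)⁻¹ by group, w.len_inv]
    obtain ⟨r, hr⟩ := near_line w hcm (by omega) hdv
    set p0 := x ^ (-r) * v with hp0
    have hd0 : F.d g1 (g1 * p0) ≤ 6 := by
      apply F_le hκ1 C.resc
      have h1 : w.d v (x ^ r) = w.len (g1⁻¹ * (g1 * p0)) := by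
        rw [w.d_comm]
        unfold GH.d
        rw [hp0, zpow_neg]
        congr 1
        group
      rw [← h1]
      omega
    have hon : ∀ k : ℤ, ∃ q : ℤ, g1 * (x ^ k * p0) = g1 * v * L.x j ^ q := by
      intro k
      have e1 : x ^ k * p0 = x ^ (k - r) * v := by
        rw [hp0, ← mul_assoc, ← zpow_add]; rfl
      rcases hpow (k - r) with h | h
      · exact ⟨k - r, by rw [e1, h]; group⟩
      · exact ⟨-(k - r), by rw [e1, h]; group⟩
    have h1 : L.D i u (g1 * (x ^ (0 : ℤ) * p0)) (g1 * (x ^ a * p0)) ≤ 234003 := by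
      obtain ⟨q1, hq1⟩ := hon 0
      obtain ⟨q2, hq2⟩ := hon a
      rw [hq1, hq2]
      exact L.wf_ov hline' _ _
    rw [zpow_zero, one_mul] at h1
    have h2 := D_le L i u g1 (g1 * p0)
    have h3 := D_le L i u (g1 * (x ^ a * p0)) (g1 * x ^ a)
    have h3' : F.d (g1 * (x ^ a * p0)) (g1 * x ^ a) = F.d g1 (g1 * p0) := by
      rw [F.d_comm g1]
      unfold GH.d
      congr 1
      group
    rw [h3'] at h3
    have h4 := L.wf_D_tri i u g1 (g1 * p0) (g1 * (x ^ a * p0))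
    have h5 := L.wf_D_tri i u g1 (g1 * (x ^ a * p0)) (g1 * x ^ a)
    have h7 := s_le L i u g1 (g1 * x ^ a)
    have h8 := abs_nonneg a
    rw [Int.abs_eq_natAbs]
    omega

/-- the main dichotomy -/
theorem dich (hmin : S_MIN) {G : Type} [Group G] {w : GH G} {κ n : ℕ} {F : GH G}
    {L : LS F 1100 234003 2} {X : Set G} {M : Subgroup G} [M.Normal] (C : Ctx w κ n L X M)
    {w' : GH (G ⧸ M)} (hQ : QL w M w') {x : G} (hx : x ∈ X) (g1 g2 : G) (j : ℤ)
    (h1 : w.len g1 ≤ 100 * κ) (h2 : w.len g2 ≤ 100 * κ) :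
    w.len (g1 * x ^ j * g2) ≤ w'.len ((g1 * x ^ j * g2 : G) : G ⧸ M) ∨
      (n : ℤ) ≤ 2 * |j| + 14 * 10 ^ 6 := by
  have hκ := C.hκ
  have hκ1 : 1 ≤ κ := by omega
  set g := g1 * x ^ j * g2 with hg
  obtain ⟨g', hg1, hg2⟩ := hQ.lift (g : G ⧸ M)
  have hm : g' * g⁻¹ ∈ M := by
    have h1 : g⁻¹ * g' ∈ M := QuotientGroup.eq.1 hg1.symm
    have h3 := C.fil.normal.conj_mem _ h1 g
    rwa [show g * (g⁻¹ * g') * g⁻¹ = g' * g⁻¹ by group] at h3
  by_cases hm1 : g' * g⁻¹ = 1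
  · left
    have : g' = g := by
      rw [mul_inv_eq_one] at hm1; exact hm1
    rw [← hg2, this]
  · right
    obtain ⟨i, u, hiu⟩ := C.fil.gr _ hm hm1 g
    rw [inv_mul_cancel_right] at hiu
    have hthr : L.thr = 472408 := rfl
    rw [hthr] at hiu
    have hmm : 2 * |L.s i u 1 g'| ≤ (n : ℤ) + 4 * (0 : ℕ) + 20000 := by
      refine hmin G w κ n F L X M C 0 g' (by omega) ?_ i u
      intro m hm
      have e : ((m * g' : G) : G ⧸ M) = (g : G ⧸ M) := by
        rw [← hg1, QuotientGroup.eq]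
        have h3 := C.fil.normal.conj_mem _ (M.inv_mem hm) g'⁻¹
        rwa [show g'⁻¹ * m⁻¹ * g'⁻¹⁻¹ = (m * g')⁻¹ * g' by group] at h3
      have h3 := hQ.le (m * g')
      rw [e] at h3
      omega
    have a1 := L.wf_s_add i u 1 g1 g
    have a2 := L.wf_s_add i u g1 (g1 * x ^ j) g
    have a3 := L.wf_s_add i u 1 g g'
    have b1 := s_pow C hx g1 j i u
    have b2 := s_le L i u 1 g1
    have b3 := D_le L i u 1 g1
    have b4 := s_le L i u (g1 * x ^ j) g
    have b5 := D_le L i u (g1 * x ^ j) g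
    have c1 : F.d 1 g1 ≤ 100 := by
      rw [F.d_one]
      exact F_le hκ1 C.resc h1
    have c2 : F.d (g1 * x ^ j) g ≤ 100 := by
      have e : F.d (g1 * x ^ j) g = F.len g2 := by
        unfold GH.d
        rw [hg]
        congr 1
        group
      rw [e]
      exact F_le hκ1 C.resc h2
    rw [abs_le] at b1
    have d1 : |L.s i u g g'| ≤ |L.s i u 1 g'| + |L.s i u 1 g| := by
      have : L.s i u g g' = L.s i u 1 g' - L.s i u 1 g := by omega
      rw [this]
      exact abs_sub _ _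
    have d2 : |L.s i u 1 g| ≤ |j| + 10 ^ 6 + 5000 := by
      rw [abs_le]
      constructor <;> omega
    push_cast at hmm hiu
    omega

theorem len_zpow_le {G : Type} [Group G] (w : GH G) (x : G) (k : ℤ) :
    w.len (x ^ k) ≤ k.natAbs * w.len x := by
  rcases Int.natAbs_eq k with h | h
  · rw [h, zpow_natCast, Int.natAbs_natCast]
    exact Fls.len_pow_le' w x _
  · rw [h, zpow_neg, w.len_inv, zpow_natCast, Int.natAbs_neg, Int.natAbs_natCast]
    exact Fls.len_pow_le' w x _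

theorem t (hmin : S_MIN) : S_RING := by
  intro G _ w κ n F L X M _ C w' hQ x hx g1 g2 j h1 h2 hj
  rcases dich hmin C hQ hx g1 g2 j h1 h2 with h | h
  · left; exact h
  right
  have hκ := C.hκ
  have hn := C.hn
  have hlo := C.lo x hx
  have hhi := C.hi x hx
  have hcm := C.cmin x hx
  -- the smaller power
  obtain ⟨N0, hN0⟩ : ∃ N0, N0 = n / 2 - 10 ^ 7 := ⟨_, rfl⟩
  obtain ⟨j0, hj0, hj1⟩ : ∃ j0 : ℤ, j0.natAbs = N0 ∧ (j - j0).natAbs ≤ 10 ^ 7 + 100 := by
    rcases le_total 0 j with h0 | h0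
    · refine ⟨N0, Int.natAbs_natCast _, ?_⟩
      rw [abs_of_nonneg h0] at h hj
      omega
    · refine ⟨-N0, by rw [Int.natAbs_neg]; exact Int.natAbs_natCast _, ?_⟩
      rw [abs_of_nonpos h0] at h hj
      omega
  have hd := dich hmin C hQ hx g1 1 j0 h1 (by rw [w.len_one]; omega)
  rw [mul_one] at hd
  have hd1 : w.len (g1 * x ^ j0) ≤ w'.len ((g1 * x ^ j0 : G) : G ⧸ M) := by
    rcases hd with hd | hd
    · exact hd
    · exfalso
      rw [Int.abs_eq_natAbs, hj0] at hd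
      omega
  -- the length of the power
  have hpow : N0 * κ ≤ 2 * w.len (x ^ j0) := by
    have e : w.len (x ^ j0) = w.len (x ^ N0) := by
      rcases Int.natAbs_eq j0 with h | h
      · rw [h, hj0, zpow_natCast]
      · rw [h, hj0, zpow_neg, w.len_inv, zpow_natCast]
    rw [e]
    obtain ⟨hsup, -⟩ := w.sup_of_cmin hcm (by omega)
    obtain ⟨k, hk⟩ : ∃ k, N0 = k + 1 := ⟨N0 - 1, by omega⟩
    have h5 := w.sup_len_mul hsup 1 k
    rw [pow_one, one_mul, ← hk] at h5
    have h6 : N0 * κ ≤ (k + 1) * w.len x := by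
      rw [hk]; exact Nat.mul_le_mul_left _ hlo
    have h7 : 2 * (k * (2 * w.D)) ≤ (k + 1) * κ := by
      have : 2 * (k * (2 * w.D)) = k * (4 * w.D) := by ring
      rw [this]
      exact Nat.mul_le_mul (by omega) (by omega)
    rw [← hk] at h6 h7
    omega
  have hg1 : w.len (x ^ j0) ≤ w.len (g1 * x ^ j0) + 100 * κ := by
    have h3 := w.len_mul g1⁻¹ (g1 * x ^ j0)
    rw [w.len_inv, inv_mul_cancel_left] at h3
    omega
  have hrest : w.len (x ^ (j - j0) * g2) ≤ (10 ^ 7 + 100) * (5 * κ) + 100 * κ := by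
    have h3 := w.len_mul (x ^ (j - j0)) g2
    have h4 := len_zpow_le w x (j - j0)
    have h5 : (j - j0).natAbs * w.len x ≤ (10 ^ 7 + 100) * (5 * κ) := Nat.mul_le_mul hj1 hhi
    omega
  have hprod : ((g1 * x ^ j0 : G) : G ⧸ M) =
      ((g1 * x ^ j * g2 : G) : G ⧸ M) * ((x ^ (j - j0) * g2 : G) : G ⧸ M)⁻¹ := by
    rw [← QuotientGroup.mk_inv, ← QuotientGroup.mk_mul]
    congr 1
    rw [zpow_sub]
    group
  have h3 := w'.len_mul ((g1 * x ^ j * g2 : G) : G ⧸ M) ((x ^ (j - j0) * g2 : G) : G ⧸ M)⁻¹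
  rw [← hprod, w'.len_inv] at h3
  have h4 := hQ.le (x ^ (j - j0) * g2)
  have h5 : n * κ ≤ 2 * (N0 + 10 ^ 7 + 1) * κ := Nat.mul_le_mul_right _ (by omega)
  have h6 : 2 * (N0 + 10 ^ 7 + 1) * κ = 2 * (N0 * κ) + (2 * 10 ^ 7 + 2) * κ := by ring
  have h7 : 10 ^ 12 * κ ≤ n * κ := Nat.mul_le_mul_right _ hn
  omega

end Pool.Agent.Y944.RN.RING
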