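import Pool.Agent.Y33.RN.Stm

set_option autoImplicit false

/-!
# Graph distance = word distance (project RN of helper33)
-/

namespace Pool.Agent.Y944.RN.FT0

open Pool.Agent.H659R3.MorseLim Pool.Agent.Y33.RN

variable {G : Type} [Group G]

/-- the graph -/
abbrev Gr (T : Finset G) : SimpleGraph G := SimpleGraph.fromRel (fun x y : G => x⁻¹ * y ∈ T)

theorem exists_walk (T : Finset G) (A : FinGen G) (hA : A.S = (T : Set G)) (l : List G)
    (hl : A.IsW l) : ∀ x y : G, l.prod = x⁻¹ * y → ∃ p : (Gr T).Walk x y, p.length ≤ l.length := by
  induction l with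
  | nil =>
    intro x y h
    obtain rfl : x = y := by
      rw [List.prod_nil] at h
      exact inv_mul_eq_one.1 h.symm
    exact ⟨SimpleGraph.Walk.nil, by simp⟩
  | cons s l ih =>
    intro x y h
    have h1 : l.prod = (x * s)⁻¹ * y := by
      rw [List.prod_cons] at h
      rw [mul_inv_rev, mul_assoc, ← h]
      group
    obtain ⟨p, hp⟩ := ih (fun a ha => hl a (List.mem_cons_of_mem _ ha)) (x * s) y h1
    by_cases hs : s = 1
    · subst hs
      have hx : x * 1 = x := mul_one x
      refine ⟨p.copy hx rfl, ?_⟩
      rw [SimpleGraph.Walk.length_copy, List.length_cons]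
      omega
    · have hadj : (Gr T).Adj x (x * s) := by
        rw [SimpleGraph.fromRel_adj]
        refine ⟨fun hh => hs ?_, ?_⟩
        · have : x * s = x * 1 := by rw [← hh, mul_one]
          exact mul_left_cancel this
        · rcases hl s (by simp) with h2 | h2
          · left
            have : x⁻¹ * (x * s) = s := by group
            rw [this]
            rw [hA] at h2
            exact_mod_cast h2
          · right
            have : (x * s)⁻¹ * x = s⁻¹ := by group
            rw [this]
            rw [hA] at h2
            exact_mod_cast h2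
      exact ⟨SimpleGraph.Walk.cons hadj p, by
        rw [SimpleGraph.Walk.length_cons, List.length_cons]; omega⟩

theorem dist_le_walk (T : Finset G) (A : FinGen G) (hA : A.S = (T : Set G)) {x y : G}
    (p : (Gr T).Walk x y) : A.dist x y ≤ p.length := by
  induction p with
  | nil => simp
  | @cons u v w h p ih =>
    have h1 : A.dist u v ≤ 1 := by
      rw [FinGen.dist]
      apply A.len_gen
      rw [SimpleGraph.fromRel_adj] at h
      rcases h.2 with h2 | h2
      · left
        rw [hA]
        exact_mod_cast h2
      · right
        rw [hA]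
        have : (u⁻¹ * v)⁻¹ = v⁻¹ * u := by group
        rw [this]
        exact_mod_cast h2
    have h2 := A.dist_triangle u v w
    rw [SimpleGraph.Walk.length_cons]
    omega

theorem t : S_FT0 := by
  intro G _ T A hA x y
  obtain ⟨l, h1, h2, h3⟩ := A.len_spec (x⁻¹ * y)
  obtain ⟨p, hp⟩ := exists_walk T A hA l h2 x y h3
  apply le_antisymm
  · exact (SimpleGraph.dist_le p).trans (by rw [FinGen.dist]; omega)
  · obtain ⟨q, hq⟩ := p.reachable.exists_walk_length_eq_dist
    rw [← hq]
    exact dist_le_walk T A hA q

end Pool.Agent.Y944.RN.FT0
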