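import Pool.Agent.Y33.RN.Stm

set_option autoImplicit false

/-!
# Superlinear divergence gives a Morse ray (project RN of helper33)
-/

namespace Pool.Agent.Y944.RN.FT1

open Pool.Agent.H659R3.MorseLim Pool.Agent.Y33.RN Pool.Agent.Y33.SM

variable {G : Type} [Group G]

/-- a path with `n` steps of length at most one from `x` to `y` in the region `R` -/
def PIn (A : FinGen G) (R : G → Prop) (x y : G) (n : ℕ) : Prop :=
  ∃ σ : ℕ → G, (∀ k, k < n → A.dist (σ k) (σ (k + 1)) ≤ 1) ∧ σ 0 = x ∧ σ n = y ∧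
    ∀ k, k ≤ n → R (σ k)

theorem PIn.trans {A : FinGen G} {R : G → Prop} {x y z : G} {n m : ℕ} (h : PIn A R x y n)
    (h' : PIn A R y z m) : PIn A R x z (n + m) := by
  obtain ⟨σ, a1, a2, a3, a4⟩ := h
  obtain ⟨τ, b1, b2, b3, b4⟩ := h'
  refine ⟨fun k => if k ≤ n then σ k else τ (k - n), ?_, ?_, ?_, ?_⟩
  · intro k hk
    dsimp only
    rcases Nat.lt_or_ge k n with h1 | h1
    · rw [if_pos h1.le, if_pos (by omega : k + 1 ≤ n)]
      exact a1 k h1
    · rw [if_neg (by omega : ¬ k + 1 ≤ n)]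
      rcases Nat.eq_or_lt_of_le h1 with h2 | h2
      · subst h2
        rw [if_pos le_rfl, a3, ← b2]
        have : n + 1 - n = 0 + 1 := by omega
        rw [this]
        exact b1 0 (by omega)
      · rw [if_neg (by omega : ¬ k ≤ n)]
        have : k + 1 - n = (k - n) + 1 := by omega
        rw [this]
        exact b1 _ (by omega)
  · simp [a2]
  · dsimp only
    rcases Nat.eq_zero_or_pos m with h1 | h1
    · subst h1
      simp only [Nat.add_zero, le_refl, if_true]
      rw [a3, ← b2, b3]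
    · rw [if_neg (by omega : ¬ n + m ≤ n)]
      have : n + m - n = m := by omega
      rw [this, b3]
  · intro k hk
    dsimp only
    split_ifs with h1
    · exact a4 k h1
    · exact b4 _ (by omega)

theorem PIn.symm {A : FinGen G} {R : G → Prop} {x y : G} {n : ℕ} (h : PIn A R x y n) :
    PIn A R y x n := by
  obtain ⟨σ, a1, a2, a3, a4⟩ := h
  refine ⟨fun k => σ (n - k), ?_, ?_, ?_, ?_⟩
  · intro k hk
    dsimp only
    have h1 : n - k = (n - (k + 1)) + 1 := by omega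
    rw [h1, A.dist_comm]
    exact a1 _ (by omega)
  · simp [a3]
  · simp [a2]
  · intro k hk
    exact a4 _ (by omega)

theorem PIn.mono {A : FinGen G} {R R' : G → Prop} {x y : G} {n : ℕ} (h : PIn A R x y n)
    (hR : ∀ g, R g → R' g) : PIn A R' x y n := by
  obtain ⟨σ, a1, a2, a3, a4⟩ := h
  exact ⟨σ, a1, a2, a3, fun k hk => hR _ (a4 k hk)⟩

theorem PIn.refl {A : FinGen G} {R : G → Prop} {x : G} (h : R x) : PIn A R x x 0 :=
  ⟨fun _ => x, by intro k hk; omega, rfl, rfl, fun _ _ => h⟩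

theorem PIn.geod (A : FinGen G) (x y : G) :
    PIn A (fun g => A.dist x g ≤ A.dist x y) x y (A.dist x y) := by
  obtain ⟨l, h1, h2, h3⟩ := A.len_spec (x⁻¹ * y)
  have h4 : l.length = A.dist x y := h1
  refine ⟨fun k => x * (l.take k).prod, ?_, ?_, ?_, ?_⟩
  · intro k hk
    dsimp only
    have hk' : k < l.length := by omega
    rw [A.dist_mul_left, List.prod_take_succ l k hk']
    exact A.dist_mul_gen _ _ (h2 _ (List.getElem_mem hk'))
  · simp
  · dsimp only
    rw [← h4, List.take_length, h3]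
    group
  · intro k hk
    dsimp only
    have h5 : A.dist x (x * (l.take k).prod) = A.len (l.take k).prod := by
      rw [FinGen.dist]
      congr 1
      group
    rw [h5]
    have h6 := A.len_le (l := l.take k) (fun a ha => h2 a (List.mem_of_mem_take ha))
    rw [List.length_take] at h6
    omega

/-- a part of the line -/
theorem PIn.line {A : FinGen G} {s : G} (hs : ∀ k : ℕ, A.len (s ^ k) = k) (x : G) {i j : ℕ}
    (hij : i ≤ j) : PIn A (fun g => i ≤ A.dist x g) (x * s ^ i) (x * s ^ j) (j - i) := by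
  refine ⟨fun k => x * s ^ (i + k), ?_, by simp, ?_, ?_⟩
  · intro k _
    dsimp only
    rw [A.dist_mul_left, FinGen.dist]
    have : (s ^ (i + k))⁻¹ * s ^ (i + (k + 1)) = s ^ 1 := by
      rw [← Nat.add_assoc, pow_succ, pow_one]
      group
    rw [this, hs]
  · dsimp only
    congr 2
    omega
  · intro k _
    dsimp only
    rw [FinGen.dist]
    have : x⁻¹ * (x * s ^ (i + k)) = s ^ (i + k) := by group
    rw [this, hs]
    omega

/-- a quasi-geodesic is followed by a path -/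
theorem PIn.quasi {A : FinGen G} {κ L : ℕ} {q : ℕ → G}
    (hq : ∀ i j, i ≤ j → j ≤ L → A.dist (q i) (q j) ≤ κ * (j - i) + κ ∧
      (j - i) ≤ κ * A.dist (q i) (q j) + κ * κ) {y : G} {D : ℕ}
    (hD : ∀ i, i ≤ L → D ≤ A.dist y (q i)) (i j : ℕ) (hij : i ≤ j) (hj : j ≤ L) :
    ∃ n, n ≤ 2 * κ * (j - i) ∧ PIn A (fun g => D ≤ A.dist y g + 2 * κ) (q i) (q j) n := by
  induction j with
  | zero =>
    obtain rfl : i = 0 := by omega
    exact ⟨0, by omega, PIn.refl (by have := hD 0 (by omega); omega)⟩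
  | succ j ih =>
    rcases Nat.lt_or_ge j i with h1 | h1
    · obtain rfl : i = j + 1 := by omega
      exact ⟨0, by omega, PIn.refl (by have := hD (j + 1) (by omega); omega)⟩
    · obtain ⟨n, hn, hp⟩ := ih h1 (by omega)
      have h2 := (hq j (j + 1) (by omega) hj).1
      have h3 : j + 1 - j = 1 := by omega
      rw [h3] at h2
      refine ⟨n + A.dist (q j) (q (j + 1)), ?_, hp.trans ((PIn.geod A (q j) (q (j + 1))).mono ?_)⟩
      · have h4 : j + 1 - i = (j - i) + 1 := by omega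
        rw [h4]
        have h5 : 2 * κ * ((j - i) + 1) = 2 * κ * (j - i) + 2 * κ := by ring
        rw [h5]
        omega
      · intro g hg
        have h4 := hD j (by omega)
        have h5 := A.dist_triangle y g (q j)
        have h6 := A.dist_comm g (q j)
        omega

theorem claimA (A : FinGen G) (t : G) (ht : ∀ k : ℕ, A.len (t ^ k) = k)
    (hc : ∀ C r : ℕ, ∃ D0 : ℕ, ∀ t1 : ℕ, D0 ≤ t1 → Cut A.dist t C r t1 t1) (κ : ℕ) :
    ∃ D1 : ℕ, ∀ (L : ℕ) (q : ℕ → G) (a b : ℕ), a ≤ b →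
      (∀ i j, i ≤ j → j ≤ L → A.dist (q i) (q j) ≤ κ * (j - i) + κ ∧
        (j - i) ≤ κ * A.dist (q i) (q j) + κ * κ) → q 0 = t ^ a → q L = t ^ b →
      ∀ m, a ≤ m → m ≤ b → ∃ i ≤ L, A.dist (t ^ m) (q i) ≤ D1 := by
  obtain ⟨D0, hD0⟩ := hc (6 + 12 * κ * κ + 2 * κ * κ * κ) 4
  refine ⟨D0 + 4 * κ + 1, ?_⟩
  intro L q a b hab hq hq0 hqL
  classical
  have hmin : ∀ m : ℕ, ∃ i ≤ L, ∀ j ≤ L, A.dist (t ^ m) (q i) ≤ A.dist (t ^ m) (q j) := by
    intro m
    obtain ⟨i, hi, hi'⟩ := Finset.exists_min_image (Finset.range (L + 1))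
      (fun i => A.dist (t ^ m) (q i)) ⟨0, by simp⟩
    rw [Finset.mem_range] at hi
    exact ⟨i, by omega, fun j hj => hi' j (by rw [Finset.mem_range]; omega)⟩
  choose s hs1 hs2 using hmin
  obtain ⟨m, hm, hmax⟩ := Finset.exists_max_image (Finset.Icc a b)
    (fun m => A.dist (t ^ m) (q (s m))) ⟨a, by simp [hab]⟩
  rw [Finset.mem_Icc] at hm
  set D := A.dist (t ^ m) (q (s m)) with hDdef
  have hmax' : ∀ m', a ≤ m' → m' ≤ b → A.dist (t ^ m') (q (s m')) ≤ D := fun m' h1 h2 =>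
    hmax m' (by rw [Finset.mem_Icc]; exact ⟨h1, h2⟩)
  have hfar : ∀ i, i ≤ L → D ≤ A.dist (t ^ m) (q i) := fun i hi => hs2 m i hi
  suffices hD : D ≤ D0 + 4 * κ + 1 by
    intro m' h1 h2
    exact ⟨s m', hs1 m', (hmax' m' h1 h2).trans hD⟩
  by_contra hcon
  rw [not_le] at hcon
  -- distances on the line
  have hline : ∀ i j : ℕ, i ≤ j → A.dist (t ^ i) (t ^ j) = j - i := by
    intro i j hij
    rw [FinGen.dist]
    have : (t ^ i)⁻¹ * t ^ j = t ^ (j - i) := by
      obtain ⟨k, rfl⟩ := Nat.exists_eq_add_of_le hij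
      rw [pow_add, Nat.add_sub_cancel_left]
      group
    rw [this, ht]
  have hma : D ≤ m - a := by
    have h1 := hfar 0 (by omega)
    rw [hq0, A.dist_comm, hline a m hm.1] at h1
    exact h1
  have hmb : D ≤ b - m := by
    have h1 := hfar L le_rfl
    rw [hqL, hline m b hm.2] at h1
    exact h1
  set R : G → Prop := fun g => D ≤ A.dist (t ^ m) g + 2 * κ with hR
  -- the right part
  have hright : ∃ i ≤ L, ∃ n ≤ 3 * D, PIn A R (t ^ m * t ^ (2 * D)) (q i) n ∧
      A.dist (t ^ m) (q i) ≤ 3 * D := by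
    rcases Nat.lt_or_ge b (m + 2 * D) with h1 | h1
    · refine ⟨L, le_rfl, 2 * D - (b - m), by omega, ?_, ?_⟩
      · have h2 := (PIn.line ht (t ^ m) (i := b - m) (j := 2 * D) (by omega)).symm
        have h3 : t ^ m * t ^ (b - m) = q L := by
          rw [hqL, ← pow_add]
          congr 1
          omega
        rw [h3] at h2
        refine h2.mono ?_
        intro g hg
        simp only [hR]
        omega
      · rw [hqL, hline m b hm.2]
        omega
    · have h2 := hmax' (m + 2 * D) (by omega) h1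
      refine ⟨s (m + 2 * D), hs1 _, A.dist (t ^ (m + 2 * D)) (q (s (m + 2 * D))), by omega, ?_, ?_⟩
      · rw [← pow_add]
        refine (PIn.geod A (t ^ (m + 2 * D)) (q (s (m + 2 * D)))).mono ?_
        intro g hg
        have h3 := hline m (m + 2 * D) (by omega)
        have h4 := A.dist_triangle (t ^ m) g (t ^ (m + 2 * D))
        have h5 := A.dist_comm g (t ^ (m + 2 * D))
        simp only [hR]
        omega
      · have h3 := hline m (m + 2 * D) (by omega)
        have h4 := A.dist_triangle (t ^ m) (t ^ (m + 2 * D)) (q (s (m + 2 * D)))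
        omega
  have hti : ∀ k : ℕ, A.len (t⁻¹ ^ k) = k := by
    intro k
    rw [inv_pow, A.len_inv, ht]
  have hleft : ∃ i ≤ L, ∃ n ≤ 3 * D, PIn A R (t ^ m * t⁻¹ ^ (2 * D)) (q i) n ∧
      A.dist (t ^ m) (q i) ≤ 3 * D := by
    rcases Nat.lt_or_ge m (a + 2 * D) with h1 | h1
    · refine ⟨0, by omega, 2 * D - (m - a), by omega, ?_, ?_⟩
      · have h2 := (PIn.line hti (t ^ m) (i := m - a) (j := 2 * D) (by omega)).symm
        have h3 : t ^ m * t⁻¹ ^ (m - a) = q 0 := by
          rw [hq0]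
          obtain ⟨k, hk⟩ := Nat.exists_eq_add_of_le hm.1
          rw [hk, Nat.add_sub_cancel_left, pow_add, inv_pow]
          group
        rw [h3] at h2
        refine h2.mono ?_
        intro g hg
        simp only [hR]
        omega
      · rw [hq0, A.dist_comm, hline a m hm.1]
        omega
    · have h2 := hmax' (m - 2 * D) (by omega) (by omega)
      have h0 : t ^ m * t⁻¹ ^ (2 * D) = t ^ (m - 2 * D) := by
        obtain ⟨k, hk⟩ := Nat.exists_eq_add_of_le (show 2 * D ≤ m by omega)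
        rw [hk, Nat.add_sub_cancel_left, Nat.add_comm, pow_add, inv_pow]
        group
      rw [h0]
      refine ⟨s (m - 2 * D), hs1 _, A.dist (t ^ (m - 2 * D)) (q (s (m - 2 * D))), by omega, ?_, ?_⟩
      · refine (PIn.geod A (t ^ (m - 2 * D)) (q (s (m - 2 * D)))).mono ?_
        intro g hg
        have h3 := hline (m - 2 * D) m (by omega)
        have h4 := A.dist_triangle (t ^ (m - 2 * D)) g (t ^ m)
        have h5 := A.dist_comm g (t ^ m)
        simp only [hR]
        omega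
      · have h3 := hline (m - 2 * D) m (by omega)
        have h4 := A.dist_triangle (t ^ m) (t ^ (m - 2 * D)) (q (s (m - 2 * D)))
        have h5 := A.dist_comm (t ^ m) (t ^ (m - 2 * D))
        omega
  obtain ⟨i, hi, n1, hn1, p1, e1⟩ := hright
  obtain ⟨j, hj, n2, hn2, p2, e2⟩ := hleft
  have hdij : A.dist (q i) (q j) ≤ 6 * D := by
    have h1 := A.dist_triangle (q i) (t ^ m) (q j)
    have h2 := A.dist_comm (q i) (t ^ m)
    omega
  have hmid : ∃ n ≤ 2 * κ * (κ * (6 * D) + κ * κ), PIn A R (q i) (q j) n := by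
    rcases le_total i j with h1 | h1
    · obtain ⟨n, hn, hp⟩ := PIn.quasi hq hfar i j h1 hj
      refine ⟨n, hn.trans ?_, hp⟩
      apply Nat.mul_le_mul_left
      have h2 := (hq i j h1 hj).2
      have h3 := Nat.mul_le_mul_left κ hdij
      omega
    · obtain ⟨n, hn, hp⟩ := PIn.quasi hq hfar j i h1 hi
      refine ⟨n, hn.trans ?_, hp.symm⟩
      apply Nat.mul_le_mul_left
      have h2 := (hq j i h1 hi).2
      rw [A.dist_comm] at h2
      have h3 := Nat.mul_le_mul_left κ hdij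
      omega
  obtain ⟨n3, hn3, p3⟩ := hmid
  obtain ⟨σ, c1, c2, c3, c4⟩ := (p1.trans p3).trans p2.symm
  have hcut := hD0 (2 * D) (by omega) (2 * D) le_rfl le_rfl (fun k => (t ^ m)⁻¹ * σ k)
    (n1 + n3 + n2) (fun k hk => by rw [A.dist_mul_left]; exact c1 k hk)
    (by rw [c2]; group) (by rw [c3, inv_pow]; group)
    (fun k hk => by
      have h1 := c4 k hk
      have h2 : A.dist 1 ((t ^ m)⁻¹ * σ k) = A.dist (t ^ m) (σ k) := by
        rw [← A.dist_mul_left (t ^ m) 1 ((t ^ m)⁻¹ * σ k)]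
        congr 1
        · group
        · group
      rw [h2]
      simp only [hR] at h1
      omega)
  have hDpos : 1 ≤ D := by omega
  have h7 : 2 * κ * (κ * (6 * D) + κ * κ) ≤ 12 * κ * κ * D + 2 * κ * κ * κ * D := by
    have : 2 * κ * κ * κ * 1 ≤ 2 * κ * κ * κ * D := Nat.mul_le_mul_left _ hDpos
    nlinarith
  have h8 : n1 + n3 + n2 ≤ 6 * D + (12 * κ * κ * D + 2 * κ * κ * κ * D) := by omega
  have h9 : (6 + 12 * κ * κ + 2 * κ * κ * κ) * (2 * D) =
      2 * (6 * D + (12 * κ * κ * D + 2 * κ * κ * κ * D)) := by ring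
  rw [h9] at hcut
  omega

/-- Claim B: the quasi-geodesic is close to the ray -/
theorem claimB (A : FinGen G) (t : G) (ht : ∀ k : ℕ, A.len (t ^ k) = k) (κ D1 : ℕ) (L : ℕ)
    (q : ℕ → G) (a b : ℕ) (hab : a ≤ b)
    (hq : ∀ i j, i ≤ j → j ≤ L → A.dist (q i) (q j) ≤ κ * (j - i) + κ ∧
        (j - i) ≤ κ * A.dist (q i) (q j) + κ * κ) (hq0 : q 0 = t ^ a) (hqL : q L = t ^ b)
    (hA : ∀ m, a ≤ m → m ≤ b → ∃ i ≤ L, A.dist (t ^ m) (q i) ≤ D1) (i : ℕ) (hi : i ≤ L) :
    ∃ m, A.dist (q i) (t ^ m) ≤ κ * (κ * (2 * D1 + 1) + κ * κ) + κ + D1 := by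
  classical
  rcases Nat.lt_or_ge (κ * κ) L with hL | hL
  swap
  · refine ⟨a, ?_⟩
    rw [← hq0, A.dist_comm]
    have h1 := (hq 0 i (by omega) hi).1
    have h2 : κ * (i - 0) ≤ κ * (κ * κ) := Nat.mul_le_mul_left _ (by omega)
    have h3 : κ * (κ * (2 * D1 + 1) + κ * κ) = κ * (κ * (2 * D1 + 1)) + κ * (κ * κ) := by ring
    omega
  have hne : a ≠ b := by
    rintro rfl
    have h1 := (hq 0 L (by omega) le_rfl).2
    rw [hq0, hqL, A.dist_self] at h1
    omega
  have hs : ∀ m, ∃ j, (a ≤ m → m ≤ b → j ≤ L ∧ A.dist (t ^ m) (q j) ≤ D1) ∧ (m = a → j = 0) ∧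
      (m = b → j = L) := by
    intro m
    by_cases h1 : m = a
    · subst h1
      refine ⟨0, fun _ _ => ⟨by omega, ?_⟩, fun _ => rfl, fun h => absurd h hne⟩
      rw [hq0, A.dist_self]; omega
    · by_cases h2 : m = b
      · subst h2
        refine ⟨L, fun _ _ => ⟨le_rfl, ?_⟩, fun h => absurd h h1, fun _ => rfl⟩
        rw [hqL, A.dist_self]; omega
      · by_cases h3 : a ≤ m ∧ m ≤ b
        · obtain ⟨j, hj, hj'⟩ := hA m h3.1 h3.2
          exact ⟨j, fun _ _ => ⟨hj, hj'⟩, fun h => absurd h h1, fun h => absurd h h2⟩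
        · exact ⟨0, fun h h' => absurd ⟨h, h'⟩ h3, fun h => absurd h h1, fun h => absurd h h2⟩
  choose s s1 s2 s3 using hs
  have hex : ∃ m, a ≤ m ∧ m ≤ b ∧ i ≤ s m := ⟨b, hab, le_rfl, by rw [s3 b rfl]; exact hi⟩
  have hspec := Nat.find_spec hex
  have hmin : ∀ k, k < Nat.find hex → ¬ (a ≤ k ∧ k ≤ b ∧ i ≤ s k) :=
    fun k hk => Nat.find_min hex hk
  generalize hM : Nat.find hex = m at *
  obtain ⟨h1, h2, h3⟩ := hspec
  obtain ⟨h4, h5⟩ := s1 m h1 h2
  have hclose : s m - i ≤ κ * (2 * D1 + 1) + κ * κ := by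
    rcases Nat.eq_or_lt_of_le h1 with h6 | h6
    · rw [s2 m h6.symm]
      omega
    · obtain ⟨k, rfl⟩ : ∃ k, m = k + 1 := ⟨m - 1, by omega⟩
      have h7 := hmin k (by omega)
      have h8 : s k < i := by
        by_contra hcon
        exact h7 ⟨by omega, by omega, by omega⟩
      obtain ⟨h9, h10⟩ := s1 k (by omega) (by omega)
      have h11 := (hq (s k) (s (k + 1)) (by omega) h4).2
      have h12 : A.dist (t ^ k) (t ^ (k + 1)) = 1 := by
        rw [FinGen.dist]
        have : (t ^ k)⁻¹ * t ^ (k + 1) = t ^ 1 := by rw [pow_succ, pow_one]; group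
        rw [this, ht]
      have h13 : A.dist (q (s k)) (q (s (k + 1))) ≤ 2 * D1 + 1 := by
        have e1 := A.dist_triangle (q (s k)) (t ^ k) (q (s (k + 1)))
        have e2 := A.dist_triangle (t ^ k) (t ^ (k + 1)) (q (s (k + 1)))
        have e3 := A.dist_comm (q (s k)) (t ^ k)
        omega
      have h14 := Nat.mul_le_mul_left κ h13
      omega
  refine ⟨m, ?_⟩
  have h6 := (hq i (s m) h3 h4).1
  have h7 := Nat.mul_le_mul_left κ hclose
  have h8 := A.dist_triangle (q i) (q (s m)) (t ^ m)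
  have h9 := A.dist_comm (q (s m)) (t ^ m)
  omega

theorem main (A : FinGen G) (t : G) (ht : ∀ k : ℕ, A.len (t ^ k) = k)
    (hc : ∀ C r : ℕ, ∃ D0 : ℕ, ∀ t1 : ℕ, D0 ≤ t1 → Cut A.dist t C r t1 t1) (κ : ℕ) :
    ∃ B : ℕ, ∀ (L : ℕ) (q : ℕ → G) (a b : ℕ),
      (∀ i j, i ≤ j → j ≤ L → A.dist (q i) (q j) ≤ κ * (j - i) + κ ∧
        (j - i) ≤ κ * A.dist (q i) (q j) + κ * κ) → q 0 = t ^ a → q L = t ^ b →
      ∀ i, i ≤ L → ∃ m, A.dist (q i) (t ^ m) ≤ B := by
  obtain ⟨D1, hD1⟩ := claimA A t ht hc κ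
  refine ⟨κ * (κ * (2 * D1 + 1) + κ * κ) + κ + D1, ?_⟩
  intro L q a b hq hq0 hqL i hi
  rcases le_total a b with hab | hab
  · exact claimB A t ht κ D1 L q a b hab hq hq0 hqL (hD1 L q a b hab hq hq0 hqL) i hi
  · have hq' : ∀ i j, i ≤ j → j ≤ L → A.dist (q (L - i)) (q (L - j)) ≤ κ * (j - i) + κ ∧
        (j - i) ≤ κ * A.dist (q (L - i)) (q (L - j)) + κ * κ := by
      intro i j hij hj
      have h1 := hq (L - j) (L - i) (by omega) (by omega)
      have h2 : L - i - (L - j) = j - i := by omega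
      rw [h2, A.dist_comm] at h1
      exact h1
    have h0 : q (L - 0) = t ^ b := by simpa using hqL
    have hL : q (L - L) = t ^ a := by simpa using hq0
    obtain ⟨m, hm⟩ := claimB A t ht κ D1 L (fun i => q (L - i)) b a hab hq' h0 hL
      (hD1 L (fun i => q (L - i)) b a hab hq' h0 hL) (L - i) (by omega)
    refine ⟨m, ?_⟩
    have h1 : L - (L - i) = i := by omega
    simp only [h1] at hm
    exact hm

theorem t (h0 : S_FT0) : S_FT1 := by
  intro G _ A t ht hc
  classical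
  have hA : A.S = ((A.finite.toFinset : Finset G) : Set G) := by
    rw [Set.Finite.coe_toFinset]
  refine ⟨A.finite.toFinset, by rw [← hA, A.gen], fun n => t ^ n, ?_, ?_⟩
  · intro m n
    rw [h0 G _ A hA]
    have key : ∀ i j : ℕ, i ≤ j → ((A.dist (t ^ i) (t ^ j) : ℕ) : ℝ) = |(i : ℝ) - (j : ℝ)| := by
      intro i j hij
      have h1 : A.dist (t ^ i) (t ^ j) = j - i := by
        rw [FinGen.dist]
        have : (t ^ i)⁻¹ * t ^ j = t ^ (j - i) := by
          obtain ⟨k, rfl⟩ := Nat.exists_eq_add_of_le hij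
          rw [pow_add, Nat.add_sub_cancel_left]
          group
        rw [this, ht]
      have h2 : (i : ℝ) ≤ j := by exact_mod_cast hij
      rw [h1, Nat.cast_sub hij, abs_sub_comm, abs_of_nonneg (by linarith)]
    rcases le_total m n with h | h
    · exact key m n h
    · rw [A.dist_comm, abs_sub_comm]
      exact key n m h
  · choose B hB using main A t ht hc
    refine ⟨fun K C => (B (⌈K⌉₊ + ⌈C⌉₊ + 1) : ℝ), ?_⟩
    intro K C hK hC L q hq hq0 hqL i hi
    obtain ⟨a, ha⟩ := hq0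
    obtain ⟨b, hb⟩ := hqL
    set κ := ⌈K⌉₊ + ⌈C⌉₊ + 1 with hκ
    have hKκ : K ≤ (κ : ℝ) := by
      have := Nat.le_ceil K
      have h2 : (0 : ℝ) ≤ (⌈C⌉₊ : ℝ) := Nat.cast_nonneg _
      rw [hκ]; push_cast; linarith
    have hCκ : C ≤ (κ : ℝ) := by
      have := Nat.le_ceil C
      have h2 : (0 : ℝ) ≤ (⌈K⌉₊ : ℝ) := Nat.cast_nonneg _
      rw [hκ]; push_cast; linarith
    obtain ⟨m, hm⟩ := hB κ L q a b (by
      intro i j hij hj
      have h1 := hq i j (by omega) hj
      rw [h0 G _ A hA] at h1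
      obtain ⟨h2, h3⟩ := h1
      have hij' : (i : ℝ) ≤ j := by exact_mod_cast hij
      have habs : |(i : ℝ) - (j : ℝ)| = ((j - i : ℕ) : ℝ) := by
        rw [Nat.cast_sub hij, abs_sub_comm, abs_of_nonneg (by linarith)]
      rw [habs] at h2 h3
      have hn : (0 : ℝ) ≤ ((j - i : ℕ) : ℝ) := Nat.cast_nonneg _
      have hd : (0 : ℝ) ≤ ((A.dist (q i) (q j) : ℕ) : ℝ) := Nat.cast_nonneg _
      have hκ0 : (0 : ℝ) ≤ κ := Nat.cast_nonneg _
      constructor
      · have h4 : ((A.dist (q i) (q j) : ℕ) : ℝ) ≤ (κ : ℝ) * ((j - i : ℕ) : ℝ) + κ := by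
          nlinarith [mul_le_mul_of_nonneg_right hKκ hn]
        exact_mod_cast h4
      · have hKpos : (0 : ℝ) < K := by linarith
        have h4 : ((j - i : ℕ) : ℝ) / K ≤ ((A.dist (q i) (q j) : ℕ) : ℝ) + C := by linarith
        rw [div_le_iff₀ hKpos] at h4
        have h5 : ((j - i : ℕ) : ℝ) ≤ (κ : ℝ) * ((A.dist (q i) (q j) : ℕ) : ℝ) + (κ : ℝ) * κ := by
          have h6 : (((A.dist (q i) (q j) : ℕ) : ℝ) + C) * K ≤
              (((A.dist (q i) (q j) : ℕ) : ℝ) + κ) * κ := by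
            apply mul_le_mul (by linarith) hKκ hKpos.le (by linarith)
          nlinarith
        exact_mod_cast h5) ha hb i hi
    refine ⟨m, ?_⟩
    rw [h0 G _ A hA]
    show ((A.dist (q i) (t ^ m) : ℕ) : ℝ) ≤ ((B κ : ℕ) : ℝ)
    exact_mod_cast hm

end Pool.Agent.Y944.RN.FT1
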